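import Pool.Agent.MP_0e6a9f_ag.H19.Spec

/-! Row KUN3: the Kuenneth computation for cochains with values in the diagonal bimodule. -/

open MulOpposite

noncomputable section
namespace FMD
open _root_.FMD.DGR _root_.FMD.Bimod

namespace K3

variable {K : Type} [Field K] {A A' : DGR} [Algebra K A.B] [A.KL K] [Algebra K A'.B] [A'.KL K]
  {q : Tw (env K A A)} {q' : Tw (env K A' A')}

lemma act_shuf (x : (env K A A).B) (y : (env K A' A').B) (a : A.B) (b : A'.B) :
    (tens K A A').self.act K (shuf K A A' (tm K _ _ x y)) (tm K A A' a b) =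
      tm K A A' (A.self.act K x a) (A'.self.act K y b) := by
  induction x using env_ind with
  | zero => simp
  | add x x' h h' => simp only [add_tm, map_add, LinearMap.add_apply, h, h']
  | em s t =>
    induction y using env_ind with
    | zero => simp
    | add y y' h h' => simp only [tm_add, map_add, LinearMap.add_apply, h, h']
    | em s' t' => rw [shuf_em, act_self_em, act_self_em, act_self_em, tm_mul, tm_mul]

variable (q q') in
/-- `boxA` as a bilinear map. -/
def bx : (q.I → A.B) →ₗ[K] (q'.I → A'.B) →ₗ[K] (q.I × q'.I → (tens K A A').B) :=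
  LinearMap.mk₂ K (boxA (q := q) (q' := q')) (fun _ _ _ => funext fun _ => add_tm _ _ _)
    (fun _ _ _ => funext fun _ => smul_tm _ _ _) (fun _ _ _ => funext fun _ => tm_add _ _ _)
    (fun _ _ _ => funext fun _ => tm_smul _ _ _)

lemma bx_apply (x : q.I → A.B) (y : q'.I → A'.B) (i : q.I × q'.I) :
    bx q q' x y i = tm K A A' (x i.1) (y i.2) := rfl

lemma bx_mem {i j n : ℤ} {x : q.I → A.B} {y : q'.I → A'.B} (hx : x ∈ bhGr q A.self i)
    (hy : y ∈ bhGr q' A'.self j) (h : i + j = n) :
    bx q q' x y ∈ bhGr (boxT q q') (tens K A A').self n := fun l =>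
  tm_mem_cor (hx l.1) (hy l.2) (by
    change _ = n + (q.deg l.1 + q'.deg l.2)
    omega)

lemma sum_idm {i : ℤ} {x : q.I → A.B} (hx : x ∈ bhGr q A.self i) (l : q.I) :
    ∑ j, A.self.act K (q.idm l j) (x j) = x l := by
  rw [Finset.sum_eq_single l]
  · rw [Tw.idm, Matrix.diagonal_apply_eq, act_e]
    exact (hx l).2
  · intro j _ hj
    rw [Tw.idm, Matrix.diagonal_apply_ne _ (Ne.symm hj), map_zero, LinearMap.zero_apply]
  · simp

lemma d_bx {i j : ℤ} {x : q.I → A.B} {y : q'.I → A'.B} (hx : x ∈ bhGr q A.self i)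
    (hy : y ∈ bhGr q' A'.self j) :
    bhD (boxT q q') (tens K A A').self (bx q q' x y) =
      bx q q' (bhD q A.self x) y + bx q q' x (bhD q' A'.self y) := by
  funext l
  have e : ∀ j : q.I × q'.I, (boxT q q').δ l j =
      shuf K A A' (tm K _ _ (q.δ l.1 j.1) (q'.idm l.2 j.2)) +
        shuf K A A' (tm K _ _ (q.idm l.1 j.1) (q'.δ l.2 j.2)) := fun j => by
    rw [← map_add]
    rfl
  change (tens K A A').d (tm K A A' (x l.1) (y l.2)) + ∑ j : q.I × q'.I,
    (tens K A A').self.act K ((boxT q q').δ l j) (tm K A A' (x j.1) (y j.2)) =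
    tm K A A' (bhD q A.self x l.1) (y l.2) + tm K A A' (x l.1) (bhD q' A'.self y l.2)
  have e' : ∀ j : q.I × q'.I,
      (tens K A A').self.act K ((boxT q q').δ l j) (tm K A A' (x j.1) (y j.2)) =
      tm K A A' (A.self.act K (q.δ l.1 j.1) (x j.1)) (A'.self.act K (q'.idm l.2 j.2) (y j.2)) +
      tm K A A' (A.self.act K (q.idm l.1 j.1) (x j.1)) (A'.self.act K (q'.δ l.2 j.2) (y j.2)) :=
    fun j => by rw [e, map_add, LinearMap.add_apply, act_shuf, act_shuf]
  rw [Finset.sum_congr rfl fun j _ => e' j]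
  simp only [Finset.sum_add_distrib,
    Fintype.sum_prod_type, ← tm_sum, ← sum_tm, sum_idm hx, sum_idm hy, d_tm, bhD_apply, add_tm,
    tm_add]
  abel

variable (q q') in
/-- The linear map on cochains of the product given by a bilinear map. -/
def ext {U : Type} [AddCommGroup U] [Module K U]
    (β : (q.I → A.B) →ₗ[K] (q'.I → A'.B) →ₗ[K] U) : (q.I × q'.I → (tens K A A').B) →ₗ[K] U :=
  ∑ l : q.I × q'.I, tlift (β.compl₁₂ (LinearMap.single K (fun _ => A.B) l.1)
    (LinearMap.single K (fun _ => A'.B) l.2)) ∘ₗ LinearMap.proj l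

lemma ext_bx {U : Type} [AddCommGroup U] [Module K U]
    (β : (q.I → A.B) →ₗ[K] (q'.I → A'.B) →ₗ[K] U) (x : q.I → A.B) (y : q'.I → A'.B) :
    ext q q' β (bx q q' x y) = β x y := by
  simp only [ext, LinearMap.sum_apply, LinearMap.comp_apply, LinearMap.proj_apply, bx_apply,
    tlift_tm, LinearMap.compl₁₂_apply, LinearMap.single_apply, Fintype.sum_prod_type, ← map_sum,
    Finset.univ_sum_single]
  rw [← LinearMap.sum_apply, ← map_sum, Finset.univ_sum_single]

lemma single_mem (hA : Deg0 A) (l : q.I) (a : A.B) :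
    Pi.single l (A.self.pr (q.ob l).2 (q.ob l).1 a) ∈ bhGr q A.self (-q.deg l) := fun j => by
  by_cases h : j = l
  · subst h
    rw [Pi.single_eq_same]
    exact cor_cast (A.self.pr_mem_cor _ _ (hA.mem a)) (by ring)
  · rw [Pi.single_eq_of_ne h]
    exact zero_mem _

lemma box_ind (hA : Deg0 A) (hA' : Deg0 A') {n : ℤ} {P : (q.I × q'.I → (tens K A A').B) → Prop}
    (zero : P 0) (add : ∀ u v, P u → P v → P (u + v))
    (box : ∀ (i : q.I) (j : q'.I) x y, x ∈ bhGr q A.self (-q.deg i) →
      y ∈ bhGr q' A'.self (-q'.deg j) → -q.deg i + -q'.deg j = n → P (bx q q' x y))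
    {m : q.I × q'.I → (tens K A A').B} (hm : m ∈ bhGr (boxT q q') (tens K A A').self n) : P m := by
  rw [← Finset.univ_sum_single m]
  refine Finset.sum_induction _ P add zero fun l _ => ?_
  have h1 := hm l
  by_cases h : n + (q.deg l.1 + q'.deg l.2) = 0
  · rw [← h1.2]
    generalize m l = z
    induction z using tens_ind with
    | zero => rw [map_zero, Pi.single_zero]; exact zero
    | add a b ha hb => rw [map_add, Pi.single_add]; exact add _ _ ha hb
    | tmul a b =>
      have := box l.1 l.2 _ _ (single_mem hA l.1 a) (single_mem hA' l.2 b) (by omega)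
      convert this using 1
      funext j
      rw [bx_apply]
      by_cases e : j = l
      · subst e
        rw [Pi.single_eq_same, Pi.single_eq_same, Pi.single_eq_same, ← act_e (K := K),
          ← act_e (K := K), ← act_e (K := K), ← act_shuf]
        congr 2
        exact ((shufF K A A').map_e (q.ob j.1, q'.ob j.2)).symm
      · rw [Pi.single_eq_of_ne e]
        by_cases e1 : j.1 = l.1
        · rw [Pi.single_eq_of_ne (fun e2 => e (Prod.ext e1 e2)), tm_zero]
        · rw [Pi.single_eq_of_ne e1, zero_tm]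
  · rw [(hA.tens hA').zero h1.1 h, Pi.single_zero]
    exact zero

lemma eq_zero (hA : Deg0 A) {n : ℤ} {x : q.I → A.B} (hx : x ∈ bhGr q A.self n)
    (h : ∀ i, n + q.deg i ≠ 0) : x = 0 := funext fun i => hA.zero (hx i).1 (h i)

variable (q) in
/-- The differential as a linear map. -/
def dL : (q.I → A.B) →ₗ[K] (q.I → A.B) where
  toFun := bhD q A.self
  map_add' := map_add _
  map_smul' := bhD_smul q A.self

lemma dL_apply (x : q.I → A.B) : dL q x = bhD q A.self x := rfl

variable {p p' : K}

/-- The projection `1 + d H + H d`. -/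
def pj (P : Pack K A p) : (P.R.q.I → A.B) →ₗ[K] (P.R.q.I → A.B) :=
  LinearMap.id + dL P.R.q ∘ₗ P.H + P.H ∘ₗ dL P.R.q

lemma pj_apply (P : Pack K A p) (x : P.R.q.I → A.B) :
    pj P x = x + bhD _ A.self (P.H x) + P.H (bhD _ A.self x) := rfl

lemma pj_mem (P : Pack K A p) {n : ℤ} {x : P.R.q.I → A.B} (hx : x ∈ bhGr _ A.self n) :
    pj P x ∈ bhGr _ A.self n :=
  add_mem (add_mem hx ((BH _ A.self).d_mem' (P.H_mem n x hx)))
    ((BH _ A.self).mem_cast (P.H_mem _ _ ((BH _ A.self).d_mem hx)) (by ring))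

lemma d_pj (P : Pack K A p) (x : P.R.q.I → A.B) :
    bhD _ A.self (pj P x) = pj P (bhD _ A.self x) := by
  simp only [pj_apply, map_add, bhD_bhD, map_zero, add_zero]

lemma pj_one (P : Pack K A p) {x : P.R.q.I → A.B} (hx : x ∈ bhGr _ A.self 1) : pj P x = 0 := by
  rw [pj_apply, add_assoc, P.H_one x hx]
  exact (BH _ A.self).two x

/-- The homotopy of the product. -/
def hh (P : Pack K A p) (P' : Pack K A' p') :
    (P.R.q.I × P'.R.q.I → (tens K A A').B) →ₗ[K] (P.R.q.I × P'.R.q.I → (tens K A A').B) :=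
  ext _ _ ((bx _ _).compl₁₂ P.H LinearMap.id + (bx _ _).compl₁₂ (pj P) P'.H)

lemma hh_bx (P : Pack K A p) (P' : Pack K A' p') (x : P.R.q.I → A.B) (y : P'.R.q.I → A'.B) :
    hh P P' (bx _ _ x y) = bx _ _ (P.H x) y + bx _ _ (pj P x) (P'.H y) := ext_bx _ x y

lemma hh_eq (P : Pack K A p) (P' : Pack K A' p') {i j : ℤ} {x : P.R.q.I → A.B}
    {y : P'.R.q.I → A'.B} (hx : x ∈ bhGr _ A.self i) (hy : y ∈ bhGr _ A'.self j) :
    bhD (boxT P.R.q P'.R.q) (tens K A A').self (hh P P' (bx _ _ x y)) +
      hh P P' (bhD (boxT P.R.q P'.R.q) (tens K A A').self (bx _ _ x y)) =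
      bx _ _ x y + bx _ _ (pj P x) (pj P' y) := by
  have two : ∀ u : P.R.q.I × P'.R.q.I → (tens K A A').B, u + u = 0 :=
    fun u => funext fun l => (tens K A A').two _
  rw [hh_bx, map_add, d_bx (P.H_mem _ _ hx) hy, d_bx (pj_mem P hx) (P'.H_mem _ _ hy), d_bx hx hy,
    map_add, hh_bx, hh_bx, d_pj, pj_apply P' y, map_add, map_add]
  have e : bx P.R.q P'.R.q (pj P x) y = bx _ _ x y + bx _ _ (bhD _ A.self (P.H x)) y +
      bx _ _ (P.H (bhD _ A.self x)) y := by
    rw [pj_apply, map_add, map_add]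
    rfl
  rw [e]
  have key : ∀ a b c d e f g : P.R.q.I × P'.R.q.I → (tens K A A').B,
      a + b + (c + d) + (e + c + (b + f)) = g + (g + a + e + d + f) := by
    intro a b c d e f g
    calc a + b + (c + d) + (e + c + (b + f)) = a + e + d + f + (b + b) + (c + c) := by abel
      _ = (g + g) + (a + e + d + f) := by rw [two, two, two, add_zero, add_zero, zero_add]
      _ = _ := by abel
  exact key _ _ _ _ _ _ _

lemma box_add (u u' : (Fr q).H) (v : (Fr q').H) : box (u + u') v = box u v + box u' v :=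
  Fr.ext fun i => by
    rw [map_add, Pi.add_apply, val_box, val_box, val_box, map_add, Pi.add_apply, add_tm, map_add]

lemma box_add' (u : (Fr q).H) (v v' : (Fr q').H) : box u (v + v') = box u v + box u v' :=
  Fr.ext fun i => by
    rw [map_add, Pi.add_apply, val_box, val_box, val_box, map_add, Pi.add_apply, tm_add, map_add]

variable (q q') in
/-- `box` as a biadditive map. -/
def boxH : (Fr q).H →+ (Fr q').H →+ (Fr (boxT q q')).H :=
  AddMonoidHom.mk' (fun u => AddMonoidHom.mk' (box u) (box_add' u)) fun u u' =>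
    AddMonoidHom.ext (box_add u u')

lemma boxH_apply (u : (Fr q).H) (v : (Fr q').H) : boxH q q' u v = box u v := rfl

lemma act_box (x : (env K A A).B) (y : (env K A' A').B) (u : (Fr q).H) (v : (Fr q').H) :
    (Fr (boxT q q')).act K (shuf K A A' (tm K _ _ x y)) (box u v) =
      box ((Fr q).act K x u) ((Fr q').act K y v) := Fr.ext fun i => by
  rw [Fr.val_act, val_box, val_box, ← map_mul, tm_mul, Fr.val_act, Fr.val_act]

lemma lift_boxK (k : q'.I → (Fr q').H) (u : (Fr q).H) (v : (Fr q').H) :
    lift _ (Fr (boxT q q')) (boxK 0 k) (box u v) = box u (lift q' (Fr q') k v) := by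
  change ∑ l : q.I × q'.I, (Fr (boxT q q')).act K (Fr.val _ (box u v) l)
    (boxH q q' 0 (Fr.gen q' l.2) + box (Fr.gen q l.1) (k l.2)) = _
  have e : ∀ l : q.I × q'.I, (Fr (boxT q q')).act K (Fr.val _ (box u v) l)
      (boxH q q' 0 (Fr.gen q' l.2) + box (Fr.gen q l.1) (k l.2)) =
      boxH q q' ((Fr q).act K (Fr.val q u l.1) (Fr.gen q l.1))
        ((Fr q').act K (Fr.val q' v l.2) (k l.2)) := fun l => by
    rw [map_zero, AddMonoidHom.zero_apply, zero_add, val_box, act_box, boxH_apply]
  simp only [e, Fintype.sum_prod_type, ← map_sum]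
  rw [← AddMonoidHom.finsetSum_apply, ← map_sum, Fr.sum_gen, lift_apply, boxH_apply]

lemma lift_boxA (a : q.I → A.B) (a' : q'.I → A'.B) (u : (Fr q).H) (v : (Fr q').H) :
    lift _ (tens K A A').self (boxA a a') (box u v) =
      tm K A A' (lift q A.self a u) (lift q' A'.self a' v) := by
  change ∑ l : q.I × q'.I, (tens K A A').self.act K (Fr.val _ (box u v) l)
    (tm K A A' (a l.1) (a' l.2)) = _
  rw [Finset.sum_congr rfl fun l _ => by rw [val_box, act_shuf]]
  simp only [Fintype.sum_prod_type, ← tm_sum, ← sum_tm]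
  rfl

end K3

open K3 in
theorem kun3 : Kun3Stmt := by
  intro K _ A A' _ _ _ _ hA hA' p p' P P'
  have two : ∀ u : P.R.q.I × P'.R.q.I → (tens K A A').B, u + u = 0 :=
    fun u => funext fun l => (tens K A A').two _
  refine ⟨fun m hm hd => ?_, fun m hm hd => ?_, ?_⟩
  · have key : hh P P' m = 0 ∧ ∃ c : K, hh P P' (bhD (boxT P.R.q P'.R.q) (tens K A A').self m) =
        m + c • bx _ _ P.R.a P'.R.a := by
      refine box_ind hA hA' (n := 0) (P := fun m => hh P P' m = 0 ∧ ∃ c : K,
        hh P P' (bhD (boxT P.R.q P'.R.q) (tens K A A').self m) = m + c • bx _ _ P.R.a P'.R.a)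
        ⟨map_zero _, 0, by simp⟩ ?_ ?_ hm
      · rintro u v ⟨h1, c, h2⟩ ⟨h3, c', h4⟩
        refine ⟨by rw [map_add, h1, h3, add_zero], c + c', ?_⟩
        rw [map_add, map_add, h2, h4, add_smul]
        abel
      · intro i j x y hx hy e
        have h1 := P.neg i
        have h2 := P'.neg j
        rw [show -P.R.q.deg i = 0 by omega] at hx
        rw [show -P'.R.q.deg j = 0 by omega] at hy
        have z1 : P.H x = 0 := eq_zero hA (P.H_mem _ _ hx) fun l => by have := P.neg l; omega
        have z2 : P'.H y = 0 := eq_zero hA' (P'.H_mem _ _ hy) fun l => by have := P'.neg l; omega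
        have z3 : hh P P' (bx _ _ x y) = 0 := by simp [hh_bx, z1, z2]
        obtain ⟨c, hc⟩ := P.H_zero x hx
        obtain ⟨c', hc'⟩ := P'.H_zero y hy
        refine ⟨z3, c' * c, ?_⟩
        have := hh_eq P P' hx hy
        rw [z3, map_zero, zero_add, pj_apply, pj_apply, z1, z2, map_zero, map_zero, add_zero,
          add_zero, hc, hc', map_smul, map_smul, LinearMap.smul_apply, smul_smul] at this
        exact this
    obtain ⟨-, c, hc⟩ := key
    rw [hd, map_zero] at hc
    exact ⟨c, (BH (boxT P.R.q P'.R.q) (tens K A A').self).eq_of_add hc.symm⟩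
  · have key : hh P P' m ∈ bhGr (boxT P.R.q P'.R.q) (tens K A A').self (3 - 1) ∧
        bhD (boxT P.R.q P'.R.q) (tens K A A').self (hh P P' m) +
          hh P P' (bhD (boxT P.R.q P'.R.q) (tens K A A').self m) = m := by
      refine box_ind hA hA' (n := 3) (P := fun m =>
        hh P P' m ∈ bhGr (boxT P.R.q P'.R.q) (tens K A A').self (3 - 1) ∧
        bhD (boxT P.R.q P'.R.q) (tens K A A').self (hh P P' m) +
          hh P P' (bhD (boxT P.R.q P'.R.q) (tens K A A').self m) = m)
        ⟨by rw [map_zero]; exact zero_mem _, by simp⟩ ?_ ?_ hm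
      · rintro u v ⟨h1, h2⟩ ⟨h3, h4⟩
        refine ⟨by rw [map_add]; exact add_mem h1 h3, ?_⟩
        rw [map_add, map_add, map_add, map_add, add_add_add_comm, h2, h4]
      · intro i j x y hx hy e
        refine ⟨?_, ?_⟩
        · rw [hh_bx]
          exact add_mem (bx_mem (P.H_mem _ _ hx) hy (by omega))
            (bx_mem (pj_mem P hx) (P'.H_mem _ _ hy) (by omega))
        · rw [hh_eq P P' hx hy]
          have h1 := P.low i
          have h2 := P'.low j
          by_cases h : -P.R.q.deg i = 1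
          · rw [h] at hx
            rw [pj_one P hx, map_zero, LinearMap.zero_apply, add_zero]
          · rw [show -P'.R.q.deg j = 1 by omega] at hy
            rw [pj_one P' hy, map_zero, add_zero]
    have hd' : bhD (boxT P.R.q P'.R.q) (tens K A A').self m = 0 := hd
    rw [hd', map_zero, add_zero] at key
    exact ⟨_, key.1, key.2⟩
  · rintro ⟨w, hw, hd⟩
    let χ := ext P.R.q P'.R.q ((LinearMap.mul K K).compl₁₂ P.χ P'.χ)
    have hχ : ∀ x y, χ (bx _ _ x y) = P.χ x * P'.χ y := ext_bx _
    have k1 : χ (bhD (boxT P.R.q P'.R.q) (tens K A A').self w) = 0 := by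
      refine box_ind hA hA' (n := 4 - 1)
        (P := fun w => χ (bhD (boxT P.R.q P'.R.q) (tens K A A').self w) = 0) (by simp) ?_ ?_ hw
      · intro u v h1 h2
        rw [map_add, map_add, h1, h2, add_zero]
      · intro i j x y hx hy e
        have h1 := P.low i
        have h2 := P'.low j
        rw [d_bx hx hy, map_add, hχ, hχ]
        by_cases h : -P.R.q.deg i = 1
        · have z : bhD _ A'.self y = 0 := eq_zero hA' ((BH _ A'.self).d_mem hy) fun l => by
            have := P'.low l; omega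
          rw [h] at hx
          rw [P.χ_d x hx, z, map_zero, zero_mul, mul_zero, add_zero]
        · have z : bhD _ A.self x = 0 := eq_zero hA ((BH _ A.self).d_mem hx) fun l => by
            have := P.low l; omega
          rw [show -P'.R.q.deg j = 1 by omega] at hy
          rw [P'.χ_d y hy, z, map_zero, zero_mul, mul_zero, add_zero]
    have k2 : bhD (boxT P.R.q P'.R.q) (tens K A A').self w =
        bx _ _ (fun i => P.R.aug (P.k i)) fun j => P'.R.aug (P'.k j) := by
      refine hd.trans (funext fun l => ?_)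
      have e : boxK P.k (0 : P'.R.q.I → (Fr P'.R.q).H) l = box (P.k l.1) (Fr.gen _ l.2) := by
        change _ + boxH _ _ (Fr.gen _ l.1) 0 = _
        rw [map_zero, add_zero]
      change lift _ (tens K A A').self (boxA P.R.a P'.R.a)
        (lift _ (Fr (boxT P.R.q P'.R.q)) (boxK 0 P'.k) (boxK P.k 0 l)) = _
      rw [e, lift_boxK, lift_gen P'.k_mem, lift_boxA]
      rfl
    rw [k2, hχ, P.χ_k, P'.χ_k, mul_one] at k1
    exact one_ne_zero k1

end FMD
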